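import Pool.Agent.OPH.StmtsB

set_option autoImplicit false

/-!
# OPH, row PT2 (helper67): the path of ratios (after `Helper21_OPG/PTL.lean`)
-/

namespace Pool.Agent.OPH.H67

open Finset Pool.Agent.OPG Pool.Agent.OPH

theorem lsum_append (A B : List (ℕ × ℕ)) : lsum (A ++ B) = lsum A + lsum B := by
  unfold lsum
  rw [List.map_append, List.sum_append]

theorem lsum_nil : lsum [] = 0 := by simp [lsum]

theorem lsum_perm {A B : List (ℕ × ℕ)} (h : A.Perm B) : lsum A = lsum B := by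
  unfold lsum
  exact (h.map _).sum_eq

theorem prod_getD (g : ℕ × ℕ → ℤˣ) (d : ℕ × ℕ) (L : List (ℕ × ℕ)) :
    ∏ i ∈ range L.length, g (L.getD i d) = (L.map g).prod := by
  induction L with
  | nil => simp
  | cons a l ih =>
    rw [List.length_cons, prod_range_succ', List.map_cons, List.prod_cons, ← ih, mul_comm]
    rfl

theorem pt2 (hG : Gr2Stmt) (hO : OrdStmt) : Pt2Stmt := by
  obtain ⟨C0, hC0, hC⟩ := hG
  intro n1 hn1
  obtain ⟨D, hD⟩ : ∃ D, D = 3 * (C0 * 2 ^ C0 + 2) := ⟨_, rfl⟩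
  obtain ⟨C, hCd⟩ : ∃ C, C = C0 + 1 + 2 ^ (D + n1 + 4) := ⟨_, rfl⟩
  have hC01 : C0 + 1 ≤ C := by rw [hCd]; exact Nat.le_add_right _ _
  have hC2 : 2 ^ (D + n1 + 4) ≤ C := by rw [hCd]; exact Nat.le_add_left _ _
  refine ⟨C, by omega, ?_⟩
  intro M hM
  have hMpos : M ≠ 0 := by omega
  obtain ⟨k, hk⟩ : ∃ k, k = Nat.log 2 M := ⟨_, rfl⟩
  rw [← hk]
  have hkl : D + n1 + 4 ≤ k := by
    rw [hk]
    exact Nat.le_log_of_pow_le (by norm_num) (hC2.trans hM)
  have hMk : M < 2 ^ (k + 1) := by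
    rw [hk]
    exact Nat.lt_pow_succ_log_self (by norm_num) M
  have hMR : (0 : ℝ) < M := by
    have : 0 < M := Nat.pos_of_ne_zero hMpos
    exact_mod_cast this
  have hn1pos : 1 ≤ n1 := hn1.pos
  have hn1R : (1 : ℝ) ≤ n1 := by exact_mod_cast hn1pos
  have hk1 : 1 ≤ k := by omega
  have hkR : (1 : ℝ) ≤ k := by exact_mod_cast hk1
  have hlog : 0 ≤ Real.log n1 := Real.log_nonneg hn1R
  obtain ⟨θ, hθ⟩ : ∃ θ : ℝ, θ = Real.log n1 / 2 := ⟨_, rfl⟩
  have hθ0 : 0 ≤ θ := by rw [hθ]; positivity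
  have hθl : θ ≤ ((k + 4 : ℕ) : ℝ) := by
    have h1 := Real.log_le_sub_one_of_pos (zero_lt_one.trans_le hn1R)
    have h2 : (n1 : ℝ) ≤ k := by
      have : n1 ≤ k := by omega
      exact_mod_cast this
    rw [hθ]
    push_cast
    linarith
  obtain ⟨L, hlen, hL, hs0, hs1⟩ := hC (k + 4) (by omega) θ hθ0 hθl
  -- sizes
  have hpow : C0 * (k + 4) ^ C0 ≤ C0 * 2 ^ C0 * k ^ C0 := by
    rw [mul_assoc, ← mul_pow]
    exact Nat.mul_le_mul_left _ (Nat.pow_le_pow_left (by omega) _)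
  have hlC0 : k ≤ k ^ C0 := by
    calc k = k ^ 1 := (pow_one k).symm
      _ ≤ k ^ C0 := Nat.pow_le_pow_right hk1 hC0
  obtain ⟨B, hB⟩ : ∃ B, B = C0 * (k + 4) ^ C0 + (k + 4) := ⟨_, rfl⟩
  have hB3 : 3 * B ≤ k ^ C := by
    calc 3 * B ≤ 3 * (C0 * 2 ^ C0 * k ^ C0 + 2 * k ^ C0) := by omega
      _ = D * k ^ C0 := by rw [hD]; ring
      _ ≤ k * k ^ C0 := Nat.mul_le_mul_right _ (by omega)
      _ = k ^ (C0 + 1) := by rw [pow_succ, mul_comm]
      _ ≤ k ^ C := Nat.pow_le_pow_right hk1 hC01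
  have hB1 : 1 ≤ B := by omega
  have hBR : (1 : ℝ) ≤ B := by exact_mod_cast hB1
  obtain ⟨Λ, hΛ⟩ : ∃ Λ : List (ℕ × ℕ), Λ = (L ++ L) ++ [(1, n1)] := ⟨_, rfl⟩
  have hΛlen : Λ.length = 2 * L.length + 1 := by
    rw [hΛ]; simp; ring
  have hlast : lsum [(1, n1)] = -Real.log n1 := by simp [lsum]
  have htot : lsum Λ = 2 * lsum L - Real.log n1 := by
    rw [hΛ, lsum_append, lsum_append, hlast]; ring
  have h2l : (1 : ℝ) / 2 ^ (k + 4) ≤ 1 / M / 8 := by
    rw [div_div]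
    apply one_div_le_one_div_of_le (by positivity)
    have h5 : (M : ℝ) ≤ 2 ^ (k + 1) := by exact_mod_cast hMk.le
    have h6 : (2 : ℝ) ^ (k + 4) = 2 ^ (k + 1) * 8 := by
      rw [show k + 4 = (k + 1) + 3 by ring, pow_add]
      norm_num
    rw [h6]
    linarith
  have h2l1 : (1 : ℝ) / M ≤ 1 := by
    rw [div_le_one hMR]
    have : 1 ≤ M := Nat.pos_of_ne_zero hMpos
    exact_mod_cast this
  have h2l0 : (0 : ℝ) < 1 / M := by positivity
  have habs : |lsum Λ| ≤ 1 / M / 4 := by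
    have e : lsum Λ = -(2 * (θ - lsum L)) := by rw [htot, hθ]; ring
    rw [e, abs_neg, abs_of_nonneg (by linarith)]
    linarith
  have hprop : ∀ x ∈ Λ, Odd x.1 ∧ Odd x.2 ∧ x.1 ≤ B ∧ x.2 ≤ B := by
    intro x hx
    rw [hΛ, List.mem_append, List.mem_append, List.mem_singleton, or_self] at hx
    rcases hx with hx | hx
    · obtain ⟨a, b, c, d⟩ := hL x hx
      exact ⟨a, b, by omega, by omega⟩
    · rw [hx]
      exact ⟨odd_one, hn1, by change 1 ≤ B; omega, by change n1 ≤ B; omega⟩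
  have hX0 : 0 ≤ Real.log B := Real.log_nonneg hBR
  have hXle : ∀ x ∈ Λ, |Real.log x.1 - Real.log x.2| ≤ Real.log B := by
    intro x hx
    obtain ⟨h1, h2, h3, h4⟩ := hprop x hx
    have a1 : (1 : ℝ) ≤ x.1 := by exact_mod_cast h1.pos
    have a2 : (1 : ℝ) ≤ x.2 := by exact_mod_cast h2.pos
    have a3 : (x.1 : ℝ) ≤ B := by exact_mod_cast h3
    have a4 : (x.2 : ℝ) ≤ B := by exact_mod_cast h4
    have b1 := Real.log_nonneg a1
    have b2 := Real.log_nonneg a2
    have b3 := Real.log_le_log (by linarith) a3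
    have b4 := Real.log_le_log (by linarith) a4
    rw [abs_le]
    constructor <;> linarith
  obtain ⟨Λ', hperm, hpart⟩ := hO Λ (Real.log B) hX0 hXle
  have hlen' : Λ'.length = 2 * L.length + 1 := by rw [hperm.length_eq, hΛlen]
  have htot' : lsum Λ' = lsum Λ := lsum_perm hperm
  have hprop' : ∀ x ∈ Λ', Odd x.1 ∧ Odd x.2 ∧ x.1 ≤ B ∧ x.2 ≤ B :=
    fun x hx => hprop x (hperm.subset hx)
  have hlog3 : 1 ≤ Real.log 3 := by
    have h1 : Real.exp 1 ≤ 3 := by
      have := Real.exp_one_lt_d9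
      linarith
    rw [← Real.log_exp 1]
    exact Real.log_le_log (Real.exp_pos 1) h1
  have h3B : Real.log (3 * B : ℝ) = Real.log 3 + Real.log B :=
    Real.log_mul (by norm_num) (by linarith)
  have hbd : ∀ i, |lsum (Λ'.take i)| ≤ Real.log (3 * B : ℝ) := by
    intro i
    rw [h3B]
    have := hpart i
    linarith
  have hget : ∀ i (h : i < 2 * L.length + 1), Λ'.getD i (1, 1) = Λ'[i]'(by rw [hlen']; exact h) := by
    intro i h
    exact List.getD_eq_getElem _ _ _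
  have hmem : ∀ i < 2 * L.length + 1, Λ'.getD i (1, 1) ∈ Λ' := by
    intro i h
    rw [hget i h]
    exact List.getElem_mem _
  have hBC : B ≤ k ^ C := by omega
  have h3BR : (3 : ℝ) * B ≤ (k : ℝ) ^ C := by exact_mod_cast hB3
  have h3B0 : (0 : ℝ) < 3 * B := by linarith
  refine ⟨2 * L.length + 1, fun i => (Λ'.getD i (1, 1)).1, fun i => (Λ'.getD i (1, 1)).2,
    fun i => Real.exp (lsum (Λ'.take i)), ?_, ?_, ?_, ?_, ?_, ?_, ?_⟩
  · have h5 : 2 * L.length + 1 ≤ 3 * B := by omega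
    exact h5.trans hB3
  · intro i hi
    obtain ⟨a, b, c, d⟩ := hprop' _ (hmem i hi)
    exact ⟨a, b, c.trans hBC, d.trans hBC⟩
  · change Real.exp (lsum (Λ'.take 0)) = 1
    rw [List.take_zero, lsum_nil, Real.exp_zero]
  · intro i hi
    have hx := hprop' _ (hmem i hi)
    have hp : (0 : ℝ) < ((Λ'.getD i (1, 1)).1 : ℝ) := by exact_mod_cast hx.1.pos
    have hq : (0 : ℝ) < ((Λ'.getD i (1, 1)).2 : ℝ) := by exact_mod_cast hx.2.1.pos
    have e : Λ'.take (i + 1) = Λ'.take i ++ [Λ'.getD i (1, 1)] := by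
      rw [hget i hi]
      exact List.take_succ_eq_append_getElem _
    change Real.exp (lsum (Λ'.take (i + 1))) * ((Λ'.getD i (1, 1)).2 : ℝ)
      = Real.exp (lsum (Λ'.take i)) * ((Λ'.getD i (1, 1)).1 : ℝ)
    have e2 : lsum [Λ'.getD i (1, 1)] = Real.log ((Λ'.getD i (1, 1)).1 : ℝ)
        - Real.log ((Λ'.getD i (1, 1)).2 : ℝ) := by simp [lsum]
    rw [e, lsum_append, e2, Real.exp_add, Real.exp_sub, Real.exp_log hp, Real.exp_log hq]
    field_simp
  · intro i _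
    have hb := abs_le.mp (hbd i)
    constructor
    · change 1 / ((k : ℝ) ^ C) ≤ Real.exp (lsum (Λ'.take i))
      refine (one_div_le_one_div_of_le h3B0 h3BR).trans ?_
      rw [one_div, ← Real.exp_log h3B0, ← Real.exp_neg]
      exact Real.exp_le_exp.mpr hb.1
    · change Real.exp (lsum (Λ'.take i)) ≤ (k : ℝ) ^ C
      refine le_trans ?_ h3BR
      calc Real.exp (lsum (Λ'.take i)) ≤ Real.exp (Real.log (3 * B : ℝ)) :=
            Real.exp_le_exp.mpr hb.2
        _ = 3 * B := Real.exp_log h3B0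
  · change |Real.exp (lsum (Λ'.take (2 * L.length + 1))) - 1| ≤ _
    have e : Λ'.take (2 * L.length + 1) = Λ' := List.take_of_length_le (by rw [hlen'])
    rw [e, htot']
    refine (Real.abs_exp_sub_one_le (by linarith)).trans ?_
    linarith
  · intro f hf hfn
    have hf1 : f 1 = 1 := by
      have := hf 1 1 odd_one odd_one
      rw [mul_one] at this
      exact (mul_eq_left.mp this.symm)
    have e := prod_getD (fun x => f x.1 * f x.2) (1, 1) Λ'
    rw [hlen'] at e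
    rw [e, (hperm.map _).prod_eq, hΛ, List.map_append, List.map_append, List.prod_append,
      List.prod_append]
    have hsq : ∀ u : ℤˣ, u * u = 1 := fun u => Int.units_mul_self u
    rw [hsq, one_mul]
    simp [hf1, hfn]

end Pool.Agent.OPH.H67
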